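import Pool.Agent.Helper9.DY.CaseII

/-!
# Facts about `x_R` at the vertex `V_2` (MP_d13a5e_al)

Notation: `Δ = x2 x1' - x1 x2' > 0`, `κ = -φ d2`, `c = -B x x' ≥ 0`, `cR = -B x t = b1 x1 + b2 x2 - g ≥ 0`,
`β2 = B x d2 = x2 - b2 g - b0 x1`.  `Δ d2 + κ Δ t = x1' x - x1 x'`.
-/

set_option autoImplicit false

namespace DY

open Set

variable {E : Type*} [AddCommGroup E] [Module ℝ E]
variable {Ψ : Set E} {B : E →ₗ[ℝ] E →ₗ[ℝ] ℝ} {ρ φ : E →ₗ[ℝ] ℝ} {t d1 d2 x x' : E}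
variable {g x1 x2 g' x1' x2' : ℝ}

theorem Xs.delta (X : Xs Ψ B ρ φ t d1 d2 x x' g x1 x2 g' x1' x2') : 0 < x2 * x1' - x1 * x2' := by
  linarith only [X.st]

theorem Xs.cxx (X : Xs Ψ B ρ φ t d1 d2 x x' g x1 x2 g' x1' x2') : B x x' ≤ 0 := by
  have h := X.L.cxx.nonpos X.L.tri.sys X.L.xm X.L.xm'
  rw [X.L.tri.symm] at h
  exact h

/-- `Δ d2 = x1' x - x1 x' + Δ φ(d2) t` -/
theorem Xs.d2_eq (X : Xs Ψ B ρ φ t d1 d2 x x' g x1 x2 g' x1' x2') :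
    (x2 * x1' - x1 * x2') • d2 = x1' • x - x1 • x' + ((x2 * x1' - x1 * x2') * φ d2) • t := by
  have f1 : g + x1 * φ d1 + x2 * φ d2 = 0 := by
    have := X.c.fz
    linarith only [this]
  have f2 : g' + x1' * φ d1 + x2' * φ d2 = 0 := by
    have := X.c'.fz
    linarith only [this]
  have h : (x2 * x1' - x1 * x2') * φ d2 = x1 * g' - x1' * g := by
    linear_combination x1' * f1 - x1 * f2
  rw [h, X.e, X.e']
  module

theorem Xs.Bxt (X : Xs Ψ B ρ φ t d1 d2 x x' g x1 x2 g' x1' x2') :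
    B x t = g - -B t d1 * x1 - -B t d2 * x2 := by
  have h := X.L.val_B g x1 x2 1 0 0
  rw [one_smul, zero_smul, zero_smul, add_zero, add_zero, ← X.e] at h
  rw [h]
  ring

theorem Xs.Bxd1 (X : Xs Ψ B ρ φ t d1 d2 x x' g x1 x2 g' x1' x2') :
    B x d1 = x1 - -B t d1 * g - -B d1 d2 * x2 := by
  have h := X.L.val_B g x1 x2 0 1 0
  rw [one_smul, zero_smul, zero_smul, zero_add, add_zero, ← X.e] at h
  rw [h]
  ring

theorem Xs.Bxd2 (X : Xs Ψ B ρ φ t d1 d2 x x' g x1 x2 g' x1' x2') :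
    B x d2 = x2 - -B t d2 * g - -B d1 d2 * x1 := by
  have h := X.L.val_B g x1 x2 0 0 1
  rw [one_smul, zero_smul, zero_smul, zero_add, zero_add, ← X.e] at h
  rw [h]
  ring

/-- `Δ β2 = x1' + x1 c + Δ κ cR` -/
theorem Xs.beta2 (X : Xs Ψ B ρ φ t d1 d2 x x' g x1 x2 g' x1' x2') :
    (x2 * x1' - x1 * x2') * B x d2 =
      x1' + x1 * -B x x' + (x2 * x1' - x1 * x2') * (-φ d2 * -B x t) := by
  have h := congrArg (B x) X.d2_eq
  simp only [map_add, map_sub, map_smul, smul_eq_mul, X.L.tri.one x X.L.xm] at h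
  linarith only [h]

/-- the norm of `Δ d2 + Δ κ t` -/
theorem Xs.nrm2 (X : Xs Ψ B ρ φ t d1 d2 x x' g x1 x2 g' x1' x2') :
    (x2 * x1' - x1 * x2') ^ 2 * (1 + φ d2 ^ 2 - 2 * -B t d2 * -φ d2) =
      x1' ^ 2 + x1 ^ 2 + 2 * x1 * x1' * -B x x' := by
  have h1 : (x2 * x1' - x1 * x2') • d2 - ((x2 * x1' - x1 * x2') * φ d2) • t = x1' • x - x1 • x' := by
    rw [X.d2_eq]
    module
  have h2 := congrArg (fun v => B v v) h1
  have s1 := X.L.tri.symm d2 t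
  have s2 := X.L.tri.symm x' x
  have o1 := X.L.tri.one t X.L.tri.ha
  have o2 := X.L.tri.one d2 X.L.tri.hc
  have o3 := X.L.tri.one x X.L.xm
  have o4 := X.L.tri.one x' X.L.xm'
  simp only [map_sub, map_smul, LinearMap.sub_apply, LinearMap.smul_apply, smul_eq_mul, s1, s2, o1, o2,
    o3, o4] at h2
  linear_combination h2

/-- the value of the centre -/
theorem Xs.rho2 (X : Xs Ψ B ρ φ t d1 d2 x x' g x1 x2 g' x1' x2') :
    (x2 * x1' - x1 * x2') * (ρ d2 - φ d2) = x1' * ρ x - x1 * ρ x' := by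
  have h := congrArg ρ X.d2_eq
  simp only [map_add, map_sub, map_smul, smul_eq_mul, X.L.rt] at h
  linarith only [h]

theorem Xs.rx_le (X : Xs Ψ B ρ φ t d1 d2 x x' g x1 x2 g' x1' x2') : ρ x ≤ 1 := by
  linarith only [X.L.sum, X.L.rx']

/-- **(K)**: `x1' ≥ Δ (κ - τ)` if `ρ d2 ≥ -τ` -/
theorem Xs.lam_ge (X : Xs Ψ B ρ φ t d1 d2 x x' g x1 x2 g' x1' x2') {τ : ℝ} (hτ : -τ ≤ ρ d2) :
    (x2 * x1' - x1 * x2') * (-φ d2 - τ) ≤ x1' := by
  have h1 := X.rho2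
  have h2 := X.delta
  have h3 : x1' * ρ x ≤ x1' * 1 := mul_le_mul_of_nonneg_left X.rx_le (by linarith only [X.p1'])
  have h4 : 0 ≤ x1 * ρ x' := mul_nonneg (by linarith only [X.p1]) X.L.rx'
  have h5 : (x2 * x1' - x1 * x2') * (-φ d2 - τ) ≤ (x2 * x1' - x1 * x2') * (ρ d2 - φ d2) :=
    mul_le_mul_of_nonneg_left (by linarith only [hτ]) h2.le
  linarith only [h1, h3, h4, h5]

/-- strict form -/
theorem Xs.lam_gt (X : Xs Ψ B ρ φ t d1 d2 x x' g x1 x2 g' x1' x2') {τ : ℝ} (hτ : -τ < ρ d2) :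
    (x2 * x1' - x1 * x2') * (-φ d2 - τ) < x1' := by
  have h1 := X.rho2
  have h2 := X.delta
  have h3 : x1' * ρ x ≤ x1' * 1 := mul_le_mul_of_nonneg_left X.rx_le (by linarith only [X.p1'])
  have h4 : 0 ≤ x1 * ρ x' := mul_nonneg (by linarith only [X.p1]) X.L.rx'
  have h5 : (x2 * x1' - x1 * x2') * (-φ d2 - τ) < (x2 * x1' - x1 * x2') * (ρ d2 - φ d2) :=
    mul_lt_mul_of_pos_left (by linarith only [hτ]) h2
  linarith only [h1, h3, h4, h5]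

theorem Xs.cR_nonneg (X : Xs Ψ B ρ φ t d1 d2 x x' g x1 x2 g' x1' x2') : 0 ≤ -B x t := by
  have := X.L.cxt.nonpos X.L.tri.sys X.L.xm X.L.tri.ha
  have h2 := X.L.tri.symm x t
  linarith only [this, h2]

/-- **(F1)** `B x d2 ≥ κ (1 + cR) - τ` if `ρ d2 ≥ -τ` -/
theorem Xs.F1 (X : Xs Ψ B ρ φ t d1 d2 x x' g x1 x2 g' x1' x2') {τ : ℝ} (hτ : -τ ≤ ρ d2) :
    -φ d2 * (1 + -B x t) - τ ≤ B x d2 := by
  have h1 := X.beta2
  have h2 := X.delta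
  have h3 := X.lam_ge hτ
  have h4 : 0 ≤ x1 * -B x x' := mul_nonneg (by linarith only [X.p1]) (by linarith only [X.cxx])
  refine le_of_mul_le_mul_left ?_ h2
  nlinarith only [h1, h3, h4]

/-- strict form of **(F1)** -/
theorem Xs.F1' (X : Xs Ψ B ρ φ t d1 d2 x x' g x1 x2 g' x1' x2') {τ : ℝ} (hτ : -τ < ρ d2) :
    -φ d2 * (1 + -B x t) - τ < B x d2 := by
  have h1 := X.beta2
  have h2 := X.delta
  have h3 := X.lam_gt hτ
  have h4 : 0 ≤ x1 * -B x x' := mul_nonneg (by linarith only [X.p1]) (by linarith only [X.cxx])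
  refine lt_of_mul_lt_mul_left ?_ h2.le
  nlinarith only [h1, h3, h4]

/-- **(C0)** `B x d2 > κ cR` -/
theorem Xs.C0 (X : Xs Ψ B ρ φ t d1 d2 x x' g x1 x2 g' x1' x2') : -φ d2 * -B x t < B x d2 := by
  have h1 := X.beta2
  have h2 := X.delta
  have h4 : 0 ≤ x1 * -B x x' := mul_nonneg (by linarith only [X.p1]) (by linarith only [X.cxx])
  refine lt_of_mul_lt_mul_left ?_ h2.le
  nlinarith only [h1, h4, X.p1']

private theorem z1n {α : ℝ} (h : Z1 α) : 0 ≤ α := by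
  rcases h with h | h <;> linarith only [h]

/-- `1 - 2 b2 κ + κ ^ 2 > 0` -/
theorem Xs.quad_pos (X : Xs Ψ B ρ φ t d1 d2 x x' g x1 x2 g' x1' x2') :
    0 < 1 + φ d2 ^ 2 - 2 * -B t d2 * -φ d2 := by
  have h1 := X.nrm2
  have h2 := X.delta
  have h3 : 0 ≤ x1 * x1' * -B x x' :=
    mul_nonneg (mul_nonneg (by linarith only [X.p1]) (by linarith only [X.p1'])) (by linarith only [X.cxx])
  have h4 : 0 < (x2 * x1' - x1 * x2') ^ 2 * (1 + φ d2 ^ 2 - 2 * -B t d2 * -φ d2) := by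
    rw [h1]
    nlinarith only [h3, X.p1, X.p1']
  exact (mul_pos_iff_of_pos_left (by positivity)).1 h4

/-- **(F2)** for `b2 ≥ 1` the point `F` is not beyond `V_2`: `κ < 1` and `1 - 2 b2 κ + κ ^ 2 > 0`, that is
`κ < b2 - √(b2 ^ 2 - 1)` -/
theorem Xs.not_beyond (X : Xs Ψ B ρ φ t d1 d2 x x' g x1 x2 g' x1' x2') (hb : 1 ≤ -B t d2) :
    -φ d2 < 1 ∧ 0 < 1 + φ d2 ^ 2 - 2 * -B t d2 * -φ d2 := by
  refine ⟨?_, X.quad_pos⟩
  by_contra hcon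
  rw [not_lt] at hcon
  have h1 := X.C0
  have hc := X.cR_nonneg
  have h2 : -B x t ≤ -φ d2 * -B x t := by nlinarith only [hcon, hc]
  rw [X.Bxt] at h1 h2
  rw [X.Bxd2] at h1
  have b1 : 0 ≤ -B t d1 := by linarith only [X.L.tri.B_nonpos]
  have b0 : 0 ≤ -B d1 d2 := by linarith only [X.L.tri.B_nonpos'']
  have hg := z1n X.c.zg
  have p1 := X.p1
  have p2 := X.p2
  have k1 : 0 ≤ (-B t d2 - 1) * g := mul_nonneg (by linarith only [hb]) hg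
  have k2 : 0 ≤ (-B t d2 - 1) * x2 := mul_nonneg (by linarith only [hb]) (by linarith only [p2])
  have k3 : 0 ≤ (-B t d1 + -B d1 d2) * x1 := mul_nonneg (by linarith only [b1, b0]) (by linarith only [p1])
  linarith only [h1, h2, k1, k2, k3]

/-- the dual form in the foot coordinates -/
theorem Xs.conic (X : Xs Ψ B ρ φ t d1 d2 x x' g x1 x2 g' x1' x2') (h1 : -B t d1 ≤ 1) (h2 : -B t d2 ≤ 1)
    (h0 : -B d1 d2 ≤ 1) :
    B d1 d2 ^ 2 + B t d1 ^ 2 + B t d2 ^ 2 - 2 * B d1 d2 * B t d1 * B t d2 - 1 ≤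
      (1 - B t d2 ^ 2) * (ρ d1 - B t d1) ^ 2 + (1 - B t d1 ^ 2) * (ρ d2 - B t d2) ^ 2 +
        2 * (B t d1 * B t d2 - B d1 d2) * (ρ d1 - B t d1) * (ρ d2 - B t d2) := by
  have h := X.L.adm.conic X.L.tri (by linarith only [h1]) (by linarith only [h2]) (by linarith only [h0])
  unfold dq at h
  rw [X.L.rt] at h
  linarith only [h]

/-- **(F3)**, first form: if `β2 ≥ b2 cR`, then `x1 ^ 2 M ≤ (1 - b2 ^ 2) (1 + cR) ^ 2` -/
theorem Xs.M_le (X : Xs Ψ B ρ φ t d1 d2 x x' g x1 x2 g' x1' x2') (h1 : -B t d1 ≤ 1) (h2 : -B t d2 < 1)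
    (h0 : -B d1 d2 ≤ 1) (hβ : -B t d2 * -B x t ≤ B x d2) :
    x1 ^ 2 * (B d1 d2 ^ 2 + B t d1 ^ 2 + B t d2 ^ 2 - 2 * B d1 d2 * B t d1 * B t d2 - 1) ≤
      (1 - B t d2 ^ 2) * (1 + -B x t) ^ 2 := by
  have hc := X.conic h1 h2.le h0
  have hf := X.L.foot
  have hx := X.rx_le
  have hr := X.rx
  have hBt := X.Bxt
  have hB2 := X.Bxd2
  have b1 : 0 ≤ -B t d1 := by linarith only [X.L.tri.B_nonpos]
  have b2 : 0 ≤ -B t d2 := by linarith only [X.L.tri.B_nonpos']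
  have b0 : 0 ≤ -B d1 d2 := by linarith only [X.L.tri.B_nonpos'']
  have p1 := X.p1
  obtain ⟨f1, f2⟩ := hf
  generalize hβ1 : -B t d1 = β1 at *
  generalize hβ2 : -B t d2 = β2 at *
  generalize hβ0 : -B d1 d2 = β0 at *
  have e1 : B t d1 = -β1 := by linarith only [hβ1]
  have e2 : B t d2 = -β2 := by linarith only [hβ2]
  have e0 : B d1 d2 = -β0 := by linarith only [hβ0]
  rw [e1, e2, e0] at hc
  rw [e1] at f1
  rw [e2] at f2
  rw [e1, e2, e0]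
  set y1 := ρ d1 - -β1 with hy1
  set y2 := ρ d2 - -β2 with hy2
  have hy1' : 0 ≤ y1 := by rw [hy1]; linarith only [f1]
  have hy2' : 0 ≤ y2 := by rw [hy2]; linarith
  -- `A = 1 - b2^2`, `N = b0 + b1 b2`, `M`
  set M := (-β0) ^ 2 + (-β1) ^ 2 + (-β2) ^ 2 - 2 * -β0 * -β1 * -β2 - 1 with hM
  have hA : 0 < 1 - (-β2) ^ 2 := by nlinarith only [h2, b2]
  set cR := -B x t with hcR
  have hT : x1 * y1 + x2 * y2 ≤ 1 + cR := by
    rw [hr] at hx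
    have : x1 * y1 + x2 * y2 = (g + x1 * ρ d1 + x2 * ρ d2) + cR := by
      rw [hcR, hBt, hy1, hy2]
      ring
    linarith
  -- slope
  have hsl : 0 ≤ (1 - (-β2) ^ 2) * x2 - (β0 + β1 * β2) * x1 := by
    rw [hB2, hcR, hBt] at hβ
    nlinarith only [hβ]
  have hS : (1 - (-β2) ^ 2) * (x1 * y1 + x2 * y2) =
      x1 * ((1 - (-β2) ^ 2) * y1 + (β0 + β1 * β2) * y2) +
        ((1 - (-β2) ^ 2) * x2 - (β0 + β1 * β2) * x1) * y2 := by ring
  have hS' : x1 * ((1 - (-β2) ^ 2) * y1 + (β0 + β1 * β2) * y2) ≤ (1 - (-β2) ^ 2) * (1 + cR) := by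
    have k1 := mul_nonneg hsl hy2'
    have k2 := mul_le_mul_of_nonneg_left hT hA.le
    linarith only [k1, k2]
  have hN : 0 ≤ (1 - (-β2) ^ 2) * y1 + (β0 + β1 * β2) * y2 := by
    have : 0 ≤ β0 + β1 * β2 := by positivity
    positivity
  -- square
  by_cases hM0 : M ≤ 0
  · have : x1 ^ 2 * M ≤ 0 := mul_nonpos_of_nonneg_of_nonpos (sq_nonneg _) hM0
    have : 0 ≤ (1 - (-β2) ^ 2) * (1 + cR) ^ 2 := by positivity
    linarith
  rw [not_le] at hM0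
  have hsq : (1 - (-β2) ^ 2) * M ≤ ((1 - (-β2) ^ 2) * y1 + (β0 + β1 * β2) * y2) ^ 2 := by
    have e : ((1 - (-β2) ^ 2) * y1 + (β0 + β1 * β2) * y2) ^ 2 =
        (1 - (-β2) ^ 2) * ((1 - (-β2) ^ 2) * y1 ^ 2 + (1 - (-β1) ^ 2) * y2 ^ 2 +
          2 * (-β1 * -β2 - -β0) * y1 * y2) + M * y2 ^ 2 := by
      rw [hM]
      ring
    rw [e]
    have k1 := mul_le_mul_of_nonneg_left hc hA.le
    have k2 := mul_nonneg hM0.le (sq_nonneg y2)
    linarith only [k1, k2]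
  have hfin : (1 - (-β2) ^ 2) * (x1 ^ 2 * M) ≤ (1 - (-β2) ^ 2) * ((1 - (-β2) ^ 2) * (1 + cR) ^ 2) := by
    have k1 : x1 ^ 2 * ((1 - (-β2) ^ 2) * M) ≤
        x1 ^ 2 * ((1 - (-β2) ^ 2) * y1 + (β0 + β1 * β2) * y2) ^ 2 :=
      mul_le_mul_of_nonneg_left hsq (sq_nonneg _)
    have k2 : (x1 * ((1 - (-β2) ^ 2) * y1 + (β0 + β1 * β2) * y2)) ^ 2 ≤
        ((1 - (-β2) ^ 2) * (1 + cR)) ^ 2 :=
      pow_le_pow_left₀ (mul_nonneg (by linarith only [p1]) hN) hS' 2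
    nlinarith only [k1, k2]
  exact le_of_mul_le_mul_left hfin hA

/-- the norm of `x` in terms of `cR`, `β2`, `x1` -/
theorem Xs.nrm_id (X : Xs Ψ B ρ φ t d1 d2 x x' g x1 x2 g' x1' x2') :
    (B x d2 - -B t d2 * -B x t) ^ 2 = (1 - B t d2 ^ 2) * (1 - (-B x t) ^ 2) +
      x1 ^ 2 * (B d1 d2 ^ 2 + B t d1 ^ 2 + B t d2 ^ 2 - 2 * B d1 d2 * B t d1 * B t d2 - 1) := by
  rw [X.Bxd2, X.Bxt]
  have h := X.c.nrm
  linear_combination (1 - B t d2 ^ 2) * h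

/-- **(F3)** labels at most one, `b2 < 1`, `κ ≥ b2`: `(κ - b2) ^ 2 (1 + cR) ≤ 2 (1 - b2 ^ 2)` -/
theorem Xs.F3 (X : Xs Ψ B ρ φ t d1 d2 x x' g x1 x2 g' x1' x2') (h1 : -B t d1 ≤ 1) (h2 : -B t d2 < 1)
    (h0 : -B d1 d2 ≤ 1) (hk : -B t d2 ≤ -φ d2) :
    (-φ d2 - -B t d2) ^ 2 * (1 + -B x t) ≤ 2 * (1 - B t d2 ^ 2) := by
  have hc := X.cR_nonneg
  have hF := X.F1 (τ := -B t d2) (by linarith only [X.L.foot.2])
  have hC := X.C0
  have hβ : -B t d2 * -B x t ≤ B x d2 := by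
    have := mul_le_mul_of_nonneg_right hk hc
    linarith only [hC, this]
  have hM := X.M_le h1 h2 h0 hβ
  have hn := X.nrm_id
  have hlow : (-φ d2 - -B t d2) * (1 + -B x t) ≤ B x d2 - -B t d2 * -B x t := by linarith only [hF]
  have hlow0 : 0 ≤ (-φ d2 - -B t d2) * (1 + -B x t) := mul_nonneg (by linarith only [hk]) (by linarith only [hc])
  have hsq := pow_le_pow_left₀ hlow0 hlow 2
  rw [hn] at hsq
  have h3 : (1 + -B x t) * ((-φ d2 - -B t d2) ^ 2 * (1 + -B x t)) ≤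
      (1 + -B x t) * (2 * (1 - B t d2 ^ 2)) := by
    nlinarith only [hM, hsq]
  exact le_of_mul_le_mul_left h3 (by linarith only [hc])

/-- `F` beyond `V_2` is impossible for `b2 ^ 2 > 2 / 3` (labels at most one) -/
theorem Xs.beyond_large (X : Xs Ψ B ρ φ t d1 d2 x x' g x1 x2 g' x1' x2') (h1 : -B t d1 ≤ 1)
    (h2 : -B t d2 < 1) (h0 : -B d1 d2 ≤ 1) (hk : 2 * -B t d2 ≤ -φ d2) (hb : 2 / 3 < B t d2 ^ 2) :
    False := by
  have b2 : 0 ≤ -B t d2 := by linarith only [X.L.tri.B_nonpos']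
  have h := X.F3 h1 h2 h0 (by linarith only [hk, b2])
  have hc := X.cR_nonneg
  have h3 : B t d2 ^ 2 ≤ (-φ d2 - -B t d2) ^ 2 := by nlinarith only [hk, b2]
  nlinarith only [hb, h, hc, h3, sq_nonneg (-φ d2 - -B t d2)]

end DY
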