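import Mathlib.Tactic
import Mathlib.Data.Real.Basic

namespace Pool.Agent.Helper23.DY

/-- The polynomial inequality behind the case `e > p τ` of `N1`. -/
theorem N1_poly {b r : ℝ} (hb : 1 ≤ 2 * b) (hr : 1 ≤ r) :
    8 * (b + r) ^ 2 - 4 * (1 + 2 * r * b) * (b + r) * ((2 * b + 1) * (4 * b + 3 * r)) +
      ((2 * b + 1) * (4 * b + 3 * r)) ^ 2 < 0 := by
  obtain ⟨u, hu⟩ : ∃ u, u = b - 1 / 2 := ⟨_, rfl⟩
  obtain ⟨v, hv⟩ : ∃ v, v = r - 1 := ⟨_, rfl⟩
  have hu0 : 0 ≤ u := by linarith only [hb, hu]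
  have hv0 : 0 ≤ v := by linarith only [hr, hv]
  have hb' : b = 1 / 2 + u := by linarith only [hu]
  have hr' : r = 1 + v := by linarith only [hv]
  subst hb' hr'
  have e1 : 8 * (1 / 2 + u + (1 + v)) ^ 2 - 4 * (1 + 2 * (1 + v) * (1 / 2 + u)) *
      (1 / 2 + u + (1 + v)) * ((2 * (1 / 2 + u) + 1) * (4 * (1 / 2 + u) + 3 * (1 + v))) +
      ((2 * (1 / 2 + u) + 1) * (4 * (1 / 2 + u) + 3 * (1 + v))) ^ 2
      = - (2 * (1 + 34 * v + 40 * v ^ 2 + 12 * v ^ 3 + 16 * u + 166 * u * v + 154 * u * v ^ 2 +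
        36 * u * v ^ 3 + 22 * u ^ 2 + 240 * u ^ 2 * v + 166 * u ^ 2 * v ^ 2 +
        24 * u ^ 2 * v ^ 3 + 8 * u ^ 3 + 144 * u ^ 3 * v + 56 * u ^ 3 * v ^ 2 +
        32 * u ^ 4 * v)) := by ring
  rw [e1]
  have : 0 < 1 + 34 * v + 40 * v ^ 2 + 12 * v ^ 3 + 16 * u + 166 * u * v + 154 * u * v ^ 2 +
        36 * u * v ^ 3 + 22 * u ^ 2 + 240 * u ^ 2 * v + 166 * u ^ 2 * v ^ 2 +
        24 * u ^ 2 * v ^ 3 + 8 * u ^ 3 + 144 * u ^ 3 * v + 56 * u ^ 3 * v ^ 2 +
        32 * u ^ 4 * v := by positivity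
  linarith only [this]

private theorem root_lt' {e c e₀ : ℝ} (he1 : e ≤ 1) (he : e ^ 2 - c * e + 1 = 0)
    (he0 : 0 < e) (h0 : 0 < e₀) (h : e₀ ^ 2 - c * e₀ + 1 < 0) : e < e₀ := by
  by_contra hlt
  push Not at hlt
  have h1 : (e - e₀) * (1 - e * e₀) < 0 := by
    have e1 : (e - e₀) * (1 - e * e₀)
        = e * (e₀ ^ 2 - c * e₀ + 1) - e₀ * (e ^ 2 - c * e + 1) := by ring
    rw [e1, he]
    have := mul_neg_of_pos_of_neg he0 h
    linarith only [this]
  have h3 : e * e₀ ≤ 1 := by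
    have := mul_le_mul he1 (hlt.trans he1) h0.le (by norm_num)
    linarith only [this]
  have := mul_nonneg (sub_nonneg.2 hlt) (sub_nonneg.2 h3)
  linarith only [h1, this]

theorem N1 {b q p e τ X Y x : ℝ} (hb : 1 ≤ 2 * b) (hq : 1 ≤ 2 * q ^ 2) (hq0 : 0 < q)
    (hp : 2 * p ^ 2 = 1) (hp0 : 0 < p) (hτ : τ * (2 * b + 1) = 1) (he0 : 0 < e) (he1 : e ≤ 1)
    (he : e ^ 2 - 2 * (p + 2 * q * b) * e + 1 = 0) (hY : 1 ≤ Y) (hx : 0 < x)
    (hn : Y ^ 2 + X ^ 2 + x ^ 2 - 2 * b * X * Y - 2 * p * X * x - 2 * q * Y * x = 1)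
    (hD : 0 < q * Y + p * X - x) (hB : 0 < X - b * Y - p * x) (hk : X ≤ 2 * p * x) :
    1 < τ * (X + Y) - e * x := by
  obtain ⟨r, hr⟩ : ∃ r, r = 2 * p * q := ⟨_, rfl⟩
  have hqr : q = p * r := by rw [hr]; linear_combination (-q) * hp
  have hr0 : 0 < r := by rw [hr]; positivity
  have hb0 : 0 < b := by linarith only [hb]
  have hr1 : 1 ≤ r := by
    have h1 : 1 ≤ r ^ 2 := by
      have : r ^ 2 = 2 * q ^ 2 := by rw [hr]; linear_combination 2 * q ^ 2 * hp
      linarith only [hq, this]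
    by_contra hc
    push Not at hc
    have := pow_lt_one₀ hr0.le hc (two_ne_zero)
    linarith only [h1, this]
  have hq2 : q ^ 2 = r ^ 2 / 2 := by rw [hqr]; linear_combination r ^ 2 / 2 * hp
  have hpq : p * q = r / 2 := by linarith only [hr]
  obtain ⟨B, hBd⟩ : ∃ B, B = X - b * Y - p * x := ⟨_, rfl⟩
  obtain ⟨D, hDd⟩ : ∃ D, D = q * Y + p * X - x := ⟨_, rfl⟩
  rw [← hBd] at hB
  rw [← hDd] at hD
  obtain ⟨W, hW⟩ : ∃ W, W = b ^ 2 + r ^ 2 / 2 + b * r - 1 / 2 := ⟨_, rfl⟩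
  have F1 : B ^ 2 - 2 * p * B * D + D ^ 2 = 1 / 2 + W * Y ^ 2 := by
    have e1 : W = b ^ 2 + q ^ 2 + 2 * b * (p * q) - 1 / 2 := by rw [hW, hq2, hpq]; ring
    rw [e1, hBd, hDd]
    linear_combination (1 - p ^ 2) * hn - (1 / 2) * (1 - Y ^ 2) * hp
  have F2 : D ≤ q * Y := by
    have h1 := mul_le_mul_of_nonneg_left hk hp0.le
    have h2 : p * (2 * p * x) = x := by linear_combination x * hp
    linarith only [hDd, h1, h2]
  have hbr : 1 / 2 ≤ b * r := by
    have := mul_le_mul (show (1 : ℝ) / 2 ≤ b by linarith only [hb]) hr1 (by norm_num) hb0.le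
    linarith only [this]
  have hb2 : 0 < b ^ 2 := by positivity
  have hWq : q ^ 2 < W := by rw [hW, hq2]; linarith only [hbr, hb2]
  have hY2 : 1 ≤ Y ^ 2 := one_le_pow₀ hY
  have F3 : 0 < B - p * D := by
    by_contra hc
    push Not at hc
    have h1 : (p * D - B) ^ 2 < (p * D) ^ 2 :=
      pow_lt_pow_left₀ (by linarith only [hB]) (by linarith only [hc]) two_ne_zero
    have h2 : (p * D - B) ^ 2 = (B ^ 2 - 2 * p * B * D + D ^ 2) - D ^ 2 / 2 := by
      linear_combination D ^ 2 / 2 * hp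
    have h3 : (p * D) ^ 2 = D ^ 2 / 2 := by linear_combination D ^ 2 / 2 * hp
    have h4 : D ^ 2 ≤ (q * Y) ^ 2 := pow_le_pow_left₀ hD.le F2 2
    have h5 : (q * Y) ^ 2 = q ^ 2 * Y ^ 2 := by ring
    have h6 : q ^ 2 * Y ^ 2 ≤ W * Y ^ 2 := mul_le_mul_of_nonneg_right hWq.le (by positivity)
    rw [h2, h3, F1] at h1
    linarith only [h1, h4, h6]
  have hW0 : 0 ≤ W := by
    have : 0 ≤ q ^ 2 := by positivity
    linarith only [hWq, this]
  have F4 : 1 / 2 + W ≤ B ^ 2 := by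
    have h1 : B ^ 2 = (B ^ 2 - 2 * p * B * D + D ^ 2) + D * (2 * p * (B - p * D)) := by
      linear_combination D ^ 2 * hp
    have h2 : 0 ≤ D * (2 * p * (B - p * D)) := by positivity
    have h3 : W * 1 ≤ W * Y ^ 2 := mul_le_mul_of_nonneg_left hY2 hW0
    rw [F1] at h1
    linarith only [h1, h2, h3]
  have F5 : b + r / 2 ≤ B := by
    have h1 : (b + r / 2) ^ 2 ≤ B ^ 2 := by
      refine le_trans ?_ F4
      rw [hW]
      have : (b + r / 2) ^ 2 = b ^ 2 + b * r + r ^ 2 / 4 := by ring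
      have h2 : 0 ≤ r ^ 2 := by positivity
      linarith only [h2]
    exact (pow_le_pow_iff_left₀ (by positivity) hB.le two_ne_zero).1 h1
  have F6 : x = 2 * p * (b + r) * Y + 2 * p * B - 2 * D := by
    rw [hBd, hDd, hqr]
    linear_combination x * hp
  have hτ0 : 0 < τ := by
    by_contra hc
    push Not at hc
    have := mul_nonpos_of_nonpos_of_nonneg hc (show 0 ≤ 2 * b + 1 by linarith only [hb0])
    linarith only [hτ, this]
  have hs0 : 0 < 2 * b + 1 := by linarith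
  -- it is enough to multiply by `2 b + 1`
  suffices h : 2 * b + 1 < X + Y - e * (2 * b + 1) * x by
    have h1 := mul_lt_mul_of_pos_left h hτ0
    have h2 : τ * (X + Y - e * (2 * b + 1) * x) = τ * (X + Y) - e * x := by
      linear_combination (-(e * x)) * hτ
    linarith only [hτ, h1, h2]
  obtain ⟨E, hE⟩ : ∃ E, E = e * (2 * b + 1) := ⟨_, rfl⟩
  rw [← hE]
  have hXY : X + Y = (1 + b) * Y + B + p * x := by rw [hBd]; ring
  rw [hXY]
  have hbY : (1 + b) * 1 ≤ (1 + b) * Y := mul_le_mul_of_nonneg_left hY (by linarith only [hs0])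
  rcases le_or_gt E p with hEp | hEp
  · have h1 : E * x ≤ p * x := mul_le_mul_of_nonneg_right hEp hx.le
    linarith only [hr1, F5, hbY, h1]
  · obtain ⟨G, hG⟩ : ∃ G, G = 2 * p * (E - p) := ⟨_, rfl⟩
    have hG0 : 0 < G := by
      rw [hG]
      have : 0 < E - p := by linarith only [hEp]
      positivity
    have hGE : G = 2 * p * E - 1 := by rw [hG]; linear_combination (-1 : ℝ) * hp
    obtain ⟨D1, hD1⟩ : ∃ D1, D1 = (2 * b + 1) * (4 * b + 3 * r) := ⟨_, rfl⟩
    have hD10 : 0 < D1 := by rw [hD1]; positivity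
    -- upper bound for `e`
    have hey : e < 4 * p * (b + r) / D1 := by
      have hy0 : 0 < 4 * p * (b + r) / D1 := by positivity
      refine root_lt' (c := 2 * (p + 2 * q * b)) he1 he he0 hy0 ?_
      have hyD : 4 * p * (b + r) / D1 * D1 = 4 * p * (b + r) := by field_simp
      obtain ⟨y, hy⟩ : ∃ y, y = 4 * p * (b + r) / D1 := ⟨_, rfl⟩
      rw [← hy] at hyD ⊢
      have h1 : (y ^ 2 - 2 * (p + 2 * q * b) * y + 1) * D1 ^ 2
          = 8 * (b + r) ^ 2 - 4 * (1 + 2 * r * b) * (b + r) * D1 + D1 ^ 2 := by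
        have h2 : (y ^ 2 - 2 * (p + 2 * q * b) * y + 1) * D1 ^ 2
            = (y * D1) ^ 2 - 2 * (p + 2 * q * b) * (y * D1) * D1 + D1 ^ 2 := by ring
        rw [h2, hyD, hqr]
        linear_combination (8 * (b + r) ^ 2 - 4 * (1 + 2 * r * b) * (b + r) * D1) * hp
      have h3 := N1_poly hb hr1
      rw [← hD1, ← h1] at h3
      by_contra hc
      push Not at hc
      have : 0 ≤ (y ^ 2 - 2 * (p + 2 * q * b) * y + 1) * D1 ^ 2 := by positivity
      linarith only [h3, this]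
    have hGr : G * (4 * b + 3 * r) < r := by
      have h1 : e * D1 < 4 * p * (b + r) := by
        rwa [lt_div_iff₀ hD10] at hey
      have h2 : e * D1 = E * (4 * b + 3 * r) := by rw [hD1, hE]; ring
      rw [h2] at h1
      have h3 := mul_lt_mul_of_pos_left h1 (show 0 < 2 * p by positivity)
      have h4 : 2 * p * (4 * p * (b + r)) = 4 * (b + r) := by
        linear_combination 4 * (b + r) * hp
      have h5 : G * (4 * b + 3 * r) = 2 * p * (E * (4 * b + 3 * r)) - (4 * b + 3 * r) := by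
        rw [hGE]; ring
      linarith only [h3, h4, h5]
    have hr3 : r < 3 := by
      -- `e ≤ 1/c`, `E > p`
      have h1 : p * (1 + 2 * r * b) * e ≤ 1 := by
        have h2 : 2 * (p * (1 + 2 * r * b) * e) = e ^ 2 + 1 := by
          rw [hqr] at he
          linear_combination (-1 : ℝ) * he
        have h3 : e ^ 2 ≤ 1 := pow_le_one₀ he0.le he1
        linarith only [h2, h3]
      have h2 : p * (1 + 2 * r * b) * E ≤ 2 * b + 1 := by
        have := mul_le_mul_of_nonneg_right h1 hs0.le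
        have e1 : p * (1 + 2 * r * b) * E = p * (1 + 2 * r * b) * e * (2 * b + 1) := by
          rw [hE]; ring
        linarith only [this, e1]
      have h3 : p * (1 + 2 * r * b) * p < p * (1 + 2 * r * b) * E :=
        mul_lt_mul_of_pos_left hEp (by positivity)
      have h4 : p * (1 + 2 * r * b) * p = (1 + 2 * r * b) / 2 := by
        linear_combination (1 + 2 * r * b) / 2 * hp
      have h5 : r * (2 * b) < 4 * b + 1 := by linarith only [h2, h3, h4]
      by_contra hc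
      push Not at hc
      have := mul_le_mul_of_nonneg_right hc (show 0 ≤ 2 * b by linarith only [hb0])
      linarith only [hb, h5, this]
    have hG1 : G < 1 := by
      have h1 : G * r ≤ G * (4 * b + 3 * r) := mul_le_mul_of_nonneg_left (by linarith only [hb0, hr1]) hG0.le
      by_contra hc
      push Not at hc
      have := mul_le_mul_of_nonneg_right hc hr0.le
      linarith only [hGr, h1, this]
    have hGb : G * (b + r) < 1 + b := by
      have h1 : G * (3 * (b + r)) ≤ G * (4 * b + 3 * r) :=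
        mul_le_mul_of_nonneg_left (by linarith only [hb0]) hG0.le
      have h2 : G * (3 * (b + r)) = 3 * (G * (b + r)) := by ring
      linarith only [hb0, hGr, hr3, h1]
    have h1 : (E - p) * x ≤ (E - p) * (2 * p * (b + r) * Y + 2 * p * B) := by
      apply mul_le_mul_of_nonneg_left _ (by linarith only [hEp])
      linarith only [hD, F6]
    have h2 : (E - p) * (2 * p * (b + r) * Y + 2 * p * B) = G * (b + r) * Y + G * B := by
      rw [hG]; ring
    have h3 : ((1 + b) - G * (b + r)) * 1 ≤ ((1 + b) - G * (b + r)) * Y :=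
      mul_le_mul_of_nonneg_left hY (by linarith only [hGb])
    have h4 : (1 - G) * (b + r / 2) ≤ (1 - G) * B := mul_le_mul_of_nonneg_left F5 (by linarith only [hG1])
    have h5 : (1 - G) * (b + r / 2) = b + r / 2 - G * (b + r / 2) := by ring
    have h6 : G * (b + r) + G * (b + r / 2) = G * (4 * b + 3 * r) / 2 := by ring
    have h7 : (E - p) * x = E * x - p * x := by ring
    have h8 : ((1 + b) - G * (b + r)) * Y = (1 + b) * Y - G * (b + r) * Y := by ring
    have h9 : (1 - G) * B = B - G * B := by ring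
    linarith only [hGr, h1, h2, h3, h4]

end Pool.Agent.Helper23.DY
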