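import Mathlib.Tactic
import Mathlib.Data.Real.Basic

namespace Pool.Agent.Helper23.DY

/-- `e ≤ e₀` for the smaller root `e ≤ 1` of `e² - c e + 1 = 0`, as soon as
`e₀² - c e₀ + 1 ≤ 0` (`e₀ > 0`). -/
theorem root_le {e c e₀ : ℝ} (he0 : 0 < e) (he1 : e ≤ 1) (he : e ^ 2 - c * e + 1 = 0)
    (h0 : 0 < e₀) (h : e₀ ^ 2 - c * e₀ + 1 ≤ 0) : e ≤ e₀ := by
  by_contra hlt
  push Not at hlt
  have h1 : (e - e₀) * (1 - e * e₀) ≤ 0 := by
    have e1 : (e - e₀) * (1 - e * e₀)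
        = e * (e₀ ^ 2 - c * e₀ + 1) - e₀ * (e ^ 2 - c * e + 1) := by ring
    rw [e1, he]
    have := mul_nonpos_of_nonneg_of_nonpos he0.le h
    linarith
  have h3 : e * e₀ < 1 := by
    have := mul_le_mul_of_nonneg_right he1 h0.le
    linarith
  have := mul_pos (sub_pos.2 hlt) (sub_pos.2 h3)
  linarith

theorem root_lt {e c e₀ : ℝ} (he0 : 0 < e) (he1 : e ≤ 1) (he : e ^ 2 - c * e + 1 = 0)
    (h0 : 0 < e₀) (h : e₀ ^ 2 - c * e₀ + 1 < 0) : e < e₀ := by
  rcases lt_or_eq_of_le (root_le he0 he1 he h0 h.le) with h1 | h1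
  · exact h1
  · subst h1; exact absurd he h.ne

theorem N3 {q e Y X x : ℝ} (hq : 1 ≤ 2 * q ^ 2) (hq0 : 0 < q) (he0 : 0 < e) (he1 : e ≤ 1)
    (he : e ^ 2 - (1 + 2 * q) * e + 1 = 0) (hY : 1 ≤ Y) (hx : 1 ≤ x)
    (hn : Y ^ 2 + X ^ 2 + x ^ 2 - X * Y - X * x - 2 * q * Y * x = 1)
    (hD : 0 < q * Y + X / 2 - x) (hk : 1 ≤ Y + x - X) (hB : 1 < X - (Y + x - X)) :
    1 < (X + Y) / 2 - e * x := by
  obtain ⟨k, hkk⟩ : ∃ k, k = Y + x - X := ⟨_, rfl⟩
  have hX : X = Y + x - k := by linarith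
  subst hX
  have hk1 : 1 ≤ k := by linarith
  have hq1 : (707 : ℝ) / 1000 < q := by
    by_contra hc
    push Not at hc
    have : q ^ 2 ≤ (707 / 1000) ^ 2 := pow_le_pow_left₀ hq0.le hc 2
    norm_num at this
    linarith
  have hx1 : x < (2 * q + 1) * Y - k := by
    have e1 : (2 * q + 1) * Y = 2 * (q * Y) + Y := by ring
    linarith
  have hx2 : 2 * k + 1 - Y < x := by linarith
  obtain ⟨s, hs⟩ : ∃ s, s = 2 * q + 2 := ⟨_, rfl⟩
  have hqs : q = s / 2 - 1 := by linarith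
  have hf : 0 < s * (Y ^ 2 - 2 * k * Y) + 3 * k ^ 2 - 1 := by
    have e1 : s * (Y ^ 2 - 2 * k * Y) + 3 * k ^ 2 - 1
        = 2 * (q * Y + (Y + x - k) / 2 - x) * (Y + x - 2 * k) := by
      rw [hs]
      linear_combination hn
    rw [e1]
    have : 0 < Y + x - 2 * k := by linarith
    positivity
  have hq2 : (3414 : ℝ) / 1000 < s := by linarith
  have hs0 : 0 < s := by linarith
  -- Y > k
  have hYk : k < Y := by
    by_contra hc
    push Not at hc
    have h1 : 3 * k + 1 < s * Y := by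
      have e1 : s * Y = (2 * q + 1) * Y + Y := by rw [hs]; ring
      linarith
    have h2 : 0 ≤ s * k - s * Y := by
      have := mul_le_mul_of_nonneg_left hc hs0.le
      linarith
    have h5 : 0 ≤ (s * Y - 3 * k) * (s * k - s * Y) := mul_nonneg (by linarith) h2
    have h4 : 0 < s * (s * (Y ^ 2 - 2 * k * Y) + 3 * k ^ 2 - 1) := mul_pos hs0 hf
    have h6 : s * (s * (Y ^ 2 - 2 * k * Y) + 3 * k ^ 2 - 1) + (s * Y - 3 * k) * (s * k - s * Y)
        = - (k * (s * Y) * (s - 3)) - s := by ring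
    have h7 : 0 < k * (s * Y) * (s - 3) := by
      have : 0 < s - 3 := by linarith
      positivity
    linarith
  obtain ⟨y, hy⟩ : ∃ y, y = Y - k := ⟨_, rfl⟩
  have hYy : Y = y + k := by linarith
  subst hYy
  have hy0 : 0 < y := by linarith
  have hf2 : 0 < s * (y ^ 2 - k ^ 2) + 3 * k ^ 2 - 1 := by
    have e1 : s * ((y + k) ^ 2 - 2 * k * (y + k)) + 3 * k ^ 2 - 1
        = s * (y ^ 2 - k ^ 2) + 3 * k ^ 2 - 1 := by ring
    linarith
  have hk2 : 1 ≤ k ^ 2 := one_le_pow₀ hk1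
  have hy2 : (414 : ℝ) / 1000 < y ^ 2 := by
    by_contra hc
    push Not at hc
    have h1 : 0 ≤ k ^ 2 - y ^ 2 := by linarith
    have h2 : 3414 / 1000 * (k ^ 2 - y ^ 2) ≤ s * (k ^ 2 - y ^ 2) :=
      mul_le_mul_of_nonneg_right hq2.le h1
    have h3 : s * (y ^ 2 - k ^ 2) = - (s * (k ^ 2 - y ^ 2)) := by ring
    linarith
  have hy3 : (643 : ℝ) / 1000 < y := by
    by_contra hc
    push Not at hc
    have : y ^ 2 ≤ (643 / 1000) ^ 2 := pow_le_pow_left₀ hy0.le hc 2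
    norm_num at this
    linarith
  have hL : (y + k + x - k + (y + k)) / 2 - e * x = y + k / 2 + (1 / 2 - e) * x := by ring
  rw [hL]
  rcases le_or_gt (3 / 4) q with hq3 | hq3
  · have hee : e ≤ 1 / 2 := by
      apply root_le he0 he1 he (by norm_num)
      linarith
    have : 0 ≤ (1 / 2 - e) * x := mul_nonneg (by linarith) (by linarith)
    linarith
  · have hee : e ≤ 1 / 2 + 314 / 10000 := by
      apply root_le he0 he1 he (by norm_num)
      linarith
    have h0 : (2 * q + 1) * (y + k) < 5 / 2 * (y + k) :=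
      mul_lt_mul_of_pos_right (by linarith) (by linarith)
    have h1 : x < 5 / 2 * y + 3 / 2 * k := by linarith
    have h2 : - (314 / 10000) * x ≤ (1 / 2 - e) * x :=
      mul_le_mul_of_nonneg_right (by linarith) (by linarith)
    linarith

end Pool.Agent.Helper23.DY
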